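import Mathlib

/-!
# An infinite-dimensional Noetherian residually nilpotent Lie algebra

Let `k` be a field of characteristic zero and `L` the Lie algebra of the derivations `D` of the
polynomial ring `k[x]` such that `x²` divides `D x`, that is the Lie algebra of the vector fields
`f(x) d/dx` with `x² ∣ f`, with the usual commutator (the positive part of the Witt algebra).

* `L` is residually nilpotent: the `n`-th term of the lower central series consists of vector fields
  divisible by `x^(n+2)`.
* `L` satisfies the maximal condition on subalgebras: if `f`, `g` have degrees `m ≠ n` then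
  `f g' - f' g` has degree exactly `m + n - 1`. So the set `S` of the numbers `deg f - 1` of the
  nonzero elements of a subalgebra is closed under the sum of two different elements, and such sets
  satisfy the ascending chain condition: if `a ∈ S` and `s ∈ S` is different from `a`, then all the
  numbers `s + t a` are in `S`. Two subalgebras one of which contains the other one and which have
  the same set `S` are equal.
-/

set_option autoImplicit false

open Polynomial

namespace Pool.Agent.Results.MP_d0ec72_al.WittPositive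

universe u

variable (k : Type u) [Field k]

lemma der_apply (D : Derivation k k[X] k[X]) (f : k[X]) : D f = derivative f * D X := by
  have h : D = mkDerivation k (D X) := derivation_ext (by simp)
  rw [h, mkDerivation_apply, mkDerivation_X, smul_eq_mul]

lemma bracket_X (D E : Derivation k k[X] k[X]) :
    (⁅D, E⁆ : Derivation k k[X] k[X]) X =
      derivative (E X) * D X - derivative (D X) * E X := by
  rw [Derivation.commutator_apply, der_apply k D (E X), der_apply k E (D X)]

/-- The Lie algebra of the derivations `D` of `k[x]` with `x² ∣ D x`, i.e. of the polynomial vector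
fields `f(x) d/dx` with `x² ∣ f`, as a subalgebra of the Lie algebra of all derivations. -/
noncomputable def W : LieSubalgebra k (Derivation k k[X] k[X]) where
  carrier := {D | (X : k[X]) ^ 2 ∣ D X}
  add_mem' := by
    intro a b ha hb
    simp only [Set.mem_ofPred_eq, Derivation.add_apply] at *
    exact dvd_add ha hb
  zero_mem' := by simp
  smul_mem' := by
    intro c a ha
    simp only [Set.mem_ofPred_eq, Derivation.smul_apply] at *
    rw [smul_eq_C_mul]
    exact Dvd.dvd.mul_left ha _
  lie_mem' := by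
    intro a b ha hb
    simp only [Set.mem_ofPred_eq] at *
    rw [bracket_X]
    exact dvd_sub (Dvd.dvd.mul_left ha _) (Dvd.dvd.mul_left hb _)

variable {k}

/-- the coefficient `f` of the vector field `f d/dx` -/
noncomputable def ph (D : W k) : k[X] := (D : Derivation k k[X] k[X]) X

lemma ph_dvd (D : W k) : (X : k[X]) ^ 2 ∣ ph D := D.2

lemma ph_inj {D E : W k} (h : ph D = ph E) : D = E := Subtype.ext (derivation_ext h)

lemma ph_zero : ph (0 : W k) = 0 := by simp [ph]

lemma ph_add (D E : W k) : ph (D + E) = ph D + ph E := by simp [ph]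

lemma ph_sub (D E : W k) : ph (D - E) = ph D - ph E := by simp [ph]

lemma ph_smul (c : k) (D : W k) : ph (c • D) = C c * ph D := by
  simp [ph, smul_eq_C_mul]

lemma ph_lie (D E : W k) :
    ph ⁅D, E⁆ = derivative (ph E) * ph D - derivative (ph D) * ph E := by
  unfold ph
  rw [LieSubalgebra.coe_bracket, bracket_X]

lemma ph_ne {D : W k} (h : D ≠ 0) : ph D ≠ 0 := fun h0 => h (ph_inj (h0.trans ph_zero.symm))

/-- the vector field `f d/dx` -/
noncomputable def mk (f : k[X]) (hf : (X : k[X]) ^ 2 ∣ f) : W k :=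
  ⟨mkDerivation k f, by show X ^ 2 ∣ mkDerivation k f X; rwa [mkDerivation_X]⟩

lemma ph_mk (f : k[X]) (hf : (X : k[X]) ^ 2 ∣ f) : ph (mk f hf) = f := by
  unfold ph mk
  simp

lemma deg_ge {D : W k} (h : D ≠ 0) : 2 ≤ (ph D).natDegree := by
  have h1 := natDegree_le_of_dvd (ph_dvd D) (ph_ne h)
  rwa [natDegree_X_pow] at h1

lemma coeff_lie (D E : W k) (hD : D ≠ 0) (hE : E ≠ 0) :
    (ph ⁅D, E⁆).coeff ((ph D).natDegree + (ph E).natDegree - 1) =
      (((ph E).natDegree : k) - ((ph D).natDegree : k)) *
        ((ph D).leadingCoeff * (ph E).leadingCoeff) := by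
  have hd := deg_ge hD
  have he := deg_ge hE
  rw [ph_lie, coeff_sub]
  have e1 : (ph D).natDegree + (ph E).natDegree - 1 =
      ((ph E).natDegree - 1) + (ph D).natDegree := by omega
  have e2 : (ph D).natDegree + (ph E).natDegree - 1 =
      ((ph D).natDegree - 1) + (ph E).natDegree := by omega
  have h1 : (derivative (ph E) * ph D).coeff ((ph D).natDegree + (ph E).natDegree - 1) =
      (ph E).natDegree * (ph E).leadingCoeff * (ph D).leadingCoeff := by
    rw [e1, coeff_mul_add_eq_of_natDegree_le (natDegree_derivative_le _) le_rfl, coeff_derivative,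
      Nat.sub_add_cancel (by omega)]
    have : (((ph E).natDegree - 1 : ℕ) : k) + 1 = ((ph E).natDegree : k) := by
      rw [Nat.cast_sub (by omega)]; simp
    rw [this]
    simp only [leadingCoeff]
    ring
  have h2 : (derivative (ph D) * ph E).coeff ((ph D).natDegree + (ph E).natDegree - 1) =
      (ph D).natDegree * (ph D).leadingCoeff * (ph E).leadingCoeff := by
    rw [e2, coeff_mul_add_eq_of_natDegree_le (natDegree_derivative_le _) le_rfl, coeff_derivative,
      Nat.sub_add_cancel (by omega)]
    have : (((ph D).natDegree - 1 : ℕ) : k) + 1 = ((ph D).natDegree : k) := by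
      rw [Nat.cast_sub (by omega)]; simp
    rw [this]
    simp only [leadingCoeff]
    ring
  rw [h1, h2]
  ring

lemma natDegree_lie_le (D E : W k) (hD : D ≠ 0) (hE : E ≠ 0) :
    (ph ⁅D, E⁆).natDegree ≤ (ph D).natDegree + (ph E).natDegree - 1 := by
  have hd := deg_ge hD
  have he := deg_ge hE
  rw [ph_lie]
  refine (natDegree_sub_le _ _).trans (max_le ?_ ?_)
  · refine natDegree_mul_le.trans ?_
    have := natDegree_derivative_le (ph E)
    omega
  · refine natDegree_mul_le.trans ?_
    have := natDegree_derivative_le (ph D)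
    omega

lemma lie_degree [CharZero k] (D E : W k) (hD : D ≠ 0) (hE : E ≠ 0)
    (hne : (ph D).natDegree ≠ (ph E).natDegree) :
    ⁅D, E⁆ ≠ 0 ∧ (ph ⁅D, E⁆).natDegree = (ph D).natDegree + (ph E).natDegree - 1 := by
  have h1 : (ph ⁅D, E⁆).coeff ((ph D).natDegree + (ph E).natDegree - 1) ≠ 0 := by
    rw [coeff_lie D E hD hE]
    refine mul_ne_zero (sub_ne_zero.2 fun h => hne (by exact_mod_cast h.symm))
      (mul_ne_zero ?_ ?_)
    · exact leadingCoeff_ne_zero.2 (ph_ne hD)
    · exact leadingCoeff_ne_zero.2 (ph_ne hE)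
  refine ⟨fun h => h1 ?_, le_antisymm (natDegree_lie_le D E hD hE) (le_natDegree_of_ne_zero h1)⟩
  rw [h, ph_zero, coeff_zero]

/-- the set of the numbers `deg f - 1`, for the nonzero vector fields `f d/dx` in `H` -/
def degs (H : LieSubalgebra k (W k)) : Set ℕ :=
  {i | ∃ D : W k, D ∈ H ∧ D ≠ 0 ∧ (ph D).natDegree = i + 1}

lemma degs_mono {H K : LieSubalgebra k (W k)} (h : H ≤ K) : degs H ⊆ degs K := by
  rintro i ⟨D, h1, h2, h3⟩
  exact ⟨D, h h1, h2, h3⟩

lemma degs_pos {H : LieSubalgebra k (W k)} {i : ℕ} (h : i ∈ degs H) : 1 ≤ i := by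
  obtain ⟨D, -, h2, h3⟩ := h
  have := deg_ge h2
  omega

lemma degs_add [CharZero k] {H : LieSubalgebra k (W k)} {i j : ℕ} (hi : i ∈ degs H)
    (hj : j ∈ degs H) (hij : i ≠ j) : i + j ∈ degs H := by
  obtain ⟨D, h1, h2, h3⟩ := hi
  obtain ⟨E, g1, g2, g3⟩ := hj
  obtain ⟨h4, h5⟩ := lie_degree D E h2 g2 (by omega)
  exact ⟨⁅D, E⁆, H.lie_mem h1 g1, h4, by omega⟩

/-- two subalgebras, one in the other one, with the same degrees are equal -/
lemma eq_of_degs {H K : LieSubalgebra k (W k)} (h : H ≤ K) (hd : degs K ⊆ degs H) : K ≤ H := by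
  suffices ∀ n : ℕ, ∀ D : W k, D ∈ K → (ph D).natDegree < n → D ∈ H from
    fun D hD => this _ D hD (Nat.lt_succ_self _)
  intro n
  induction n with
  | zero => intro D _ h; omega
  | succ n ih =>
    intro D hD hn
    by_cases h0 : D = 0
    · rw [h0]; exact H.zero_mem
    have h2 := deg_ge h0
    have hmem : (ph D).natDegree - 1 ∈ degs K := ⟨D, hD, h0, by omega⟩
    obtain ⟨E, hE, hE0, hE1⟩ := hd hmem
    have hdeg : (ph E).natDegree = (ph D).natDegree := by omega
    set c : k := (ph D).leadingCoeff / (ph E).leadingCoeff with hc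
    have hlE : (ph E).leadingCoeff ≠ 0 := leadingCoeff_ne_zero.2 (ph_ne hE0)
    have hlD : (ph D).leadingCoeff ≠ 0 := leadingCoeff_ne_zero.2 (ph_ne h0)
    have hc0 : c ≠ 0 := div_ne_zero hlD hlE
    have hK : D - c • E ∈ K := K.sub_mem hD (K.smul_mem c (h hE))
    have hlt : (ph (D - c • E)).natDegree < n ∨ D - c • E = 0 := by
      by_cases hz : D - c • E = 0
      · exact Or.inr hz
      left
      have h3 : (ph (D - c • E)).degree < (ph D).degree := by
        rw [ph_sub, ph_smul]
        apply degree_sub_lt_left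
        · rw [degree_C_mul hc0, degree_eq_natDegree (ph_ne h0), degree_eq_natDegree (ph_ne hE0),
            hdeg]
        · exact ph_ne h0
        · rw [leadingCoeff_mul, leadingCoeff_C, hc, div_mul_cancel₀ _ hlE]
      have h4 := natDegree_lt_natDegree (ph_ne hz) h3
      omega
    have hH : D - c • E ∈ H := by
      rcases hlt with hlt | hz
      · exact ih _ hK hlt
      · rw [hz]; exact H.zero_mem
    have := H.add_mem hH (H.smul_mem c hE)
    simpa using this

/-- a set of positive integers closed under sums of two different elements contains, with `a` and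
`s ≠ a`, all the numbers `s + t a` -/
lemma closed_prog {S : Set ℕ} (hpos : ∀ i ∈ S, 1 ≤ i)
    (hadd : ∀ i ∈ S, ∀ j ∈ S, i ≠ j → i + j ∈ S) {a s : ℕ} (ha : a ∈ S) (hs : s ∈ S)
    (hne : s ≠ a) (t : ℕ) : s + t * a ∈ S := by
  have hs1 := hpos s hs
  have ha1 := hpos a ha
  induction t with
  | zero => simpa using hs
  | succ t ih =>
    have h1 : s + t * a ≠ a := by
      rcases Nat.eq_zero_or_pos t with rfl | ht
      · simpa using hne
      · have : a ≤ t * a := Nat.le_mul_of_pos_left a ht
        omega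
    have h2 := hadd _ ih _ ha h1
    have h3 : s + t * a + a = s + (t + 1) * a := by ring
    rwa [h3] at h2

/-- ascending chain condition for the sets closed under sums of two different elements -/
lemma acc (S : ℕ → Set ℕ) (hmono : Monotone S) (hpos : ∀ n, ∀ i ∈ S n, 1 ≤ i)
    (hadd : ∀ n, ∀ i ∈ S n, ∀ j ∈ S n, i ≠ j → i + j ∈ S n) :
    ∃ N, ∀ m, S m ⊆ S N := by
  classical
  by_cases hne : ∃ a n, a ∈ S n
  swap
  · exact ⟨0, fun m i hi => (hne ⟨i, m, hi⟩).elim⟩
  obtain ⟨a, n0, ha⟩ := hne
  have ha1 := hpos _ _ ha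
  -- for each residue class `r` an index `N r`
  have hr : ∀ r : ℕ, ∃ N : ℕ, (∃ s, s % a = r ∧ s ≠ a ∧ ∃ n, s ∈ S n) →
      ∃ s0 ∈ S N, s0 % a = r ∧ s0 ≠ a ∧ ∀ s, s % a = r → s ≠ a → (∃ n, s ∈ S n) → s0 ≤ s := by
    intro r
    by_cases h : ∃ s, s % a = r ∧ s ≠ a ∧ ∃ n, s ∈ S n
    · obtain ⟨h1, h2, N, h3⟩ := Nat.find_spec h
      exact ⟨N, fun _ => ⟨Nat.find h, h3, h1, h2, fun s g1 g2 g3 => Nat.find_min' h ⟨g1, g2, g3⟩⟩⟩
    · exact ⟨0, fun h' => (h h').elim⟩
  choose N hN using hr
  refine ⟨max n0 ((Finset.range a).sup N), fun m i hi => ?_⟩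
  have haN : a ∈ S (max n0 ((Finset.range a).sup N)) := hmono (le_max_left _ _) ha
  by_cases hia : i = a
  · rw [hia]; exact haN
  obtain ⟨s0, h1, h2, h3, h4⟩ := hN (i % a) ⟨i, rfl, hia, m, hi⟩
  have hle := h4 i rfl hia ⟨m, hi⟩
  have hs0 : s0 ∈ S (max n0 ((Finset.range a).sup N)) := by
    refine hmono ?_ h1
    refine le_trans ?_ (le_max_right _ _)
    exact Finset.le_sup (f := N) (Finset.mem_range.2 (Nat.mod_lt _ ha1))
  have hdvd : a ∣ i - s0 := (Nat.modEq_iff_dvd' hle).1 h2
  obtain ⟨t, ht⟩ := hdvd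
  have : i = s0 + t * a := by
    have : i - s0 = t * a := by rw [ht]; ring
    omega
  rw [this]
  exact closed_prog (hpos _) (hadd _) haN hs0 h3 t

theorem stab [CharZero k] (f : ℕ →o LieSubalgebra k (W k)) : ∃ n, ∀ m, n ≤ m → f n = f m := by
  obtain ⟨N, hN⟩ := acc (fun n => degs (f n)) (fun _ _ h => degs_mono (f.monotone h))
    (fun n i hi => degs_pos hi) (fun n i hi j hj hij => degs_add hi hj hij)
  exact ⟨N, fun m hm => le_antisymm (f.monotone hm) (eq_of_degs (f.monotone hm) (hN m))⟩

lemma dvd_lie {a b : W k} {n : ℕ} (hb : (X : k[X]) ^ (n + 2) ∣ ph b) :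
    (X : k[X]) ^ (n + 1 + 2) ∣ ph ⁅a, b⁆ := by
  rw [ph_lie]
  refine dvd_sub ?_ ?_
  · have h1 := pow_sub_one_dvd_derivative_of_pow_dvd hb
    have h2 := mul_dvd_mul h1 (ph_dvd a)
    rw [← pow_add] at h2
    exact h2
  · have h1 := pow_sub_one_dvd_derivative_of_pow_dvd (ph_dvd a)
    have h2 := mul_dvd_mul h1 hb
    rw [← pow_add] at h2
    refine dvd_trans (pow_dvd_pow _ ?_) h2
    omega

/-- the ideal of the vector fields divisible by `x ^ (n + 2)` -/
def I (n : ℕ) : LieIdeal k (W k) where
  carrier := {D | (X : k[X]) ^ (n + 2) ∣ ph D}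
  add_mem' := by
    intro a b ha hb
    simp only [Set.mem_ofPred_eq, ph_add] at *
    exact dvd_add ha hb
  zero_mem' := by simp [ph_zero]
  smul_mem' := by
    intro c a ha
    simp only [Set.mem_ofPred_eq, ph_smul] at *
    exact Dvd.dvd.mul_left ha _
  lie_mem := by
    intro a b hb
    have hb' : (X : k[X]) ^ (n + 2) ∣ ph b := hb
    show (X : k[X]) ^ (n + 2) ∣ ph ⁅a, b⁆
    exact dvd_trans (pow_dvd_pow _ (by omega)) (dvd_lie (a := a) hb')

lemma mem_I {n : ℕ} {D : W k} : D ∈ I (k := k) n ↔ (X : k[X]) ^ (n + 2) ∣ ph D := Iff.rfl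

lemma lcs_le (n : ℕ) : LieModule.lowerCentralSeries k (W k) (W k) n ≤ I n := by
  induction n with
  | zero => exact fun D _ => ph_dvd D
  | succ n ih =>
    rw [LieModule.lowerCentralSeries_succ, LieSubmodule.lieIdeal_oper_eq_span,
      LieSubmodule.lieSpan_le]
    rintro _ ⟨⟨a, -⟩, ⟨b, hb⟩, rfl⟩
    exact dvd_lie (mem_I.1 (ih hb))

lemma nilp (n : ℕ) : LieRing.IsNilpotent (W k ⧸ I (k := k) n) := by
  have h : LieModule.IsNilpotent (W k) (W k ⧸ I (k := k) n) :=
    (LieModule.isNilpotent_quotient_iff k (W k) (W k) (I n)).2 ⟨n, lcs_le n⟩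
  rw [LieModule.isNilpotent_iff k] at h
  rw [LieRing.IsNilpotent, LieModule.isNilpotent_iff k]
  obtain ⟨m, hm⟩ := h
  refine ⟨m, ?_⟩
  rw [← LieSubmodule.toSubmodule_inj, ← coe_lowerCentralSeries_ideal_quot_eq, hm]
  rfl

lemma exists_notMem {D : W k} (h : D ≠ 0) : ∃ n, D ∉ I (k := k) n := by
  refine ⟨(ph D).natDegree, fun hm => ?_⟩
  have := natDegree_le_of_dvd (mem_I.1 hm) (ph_ne h)
  rw [natDegree_X_pow] at this
  omega

lemma infinite_dim : ¬ Module.Finite k (W k) := by
  intro hfin
  -- the linearly independent family of the fields `x ^ (n + 2) d/dx`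
  let v : ℕ → W k := fun n => mk (X ^ (n + 2)) (pow_dvd_pow _ (by omega))
  let F : W k →ₗ[k] k[X] :=
    { toFun := ph, map_add' := ph_add, map_smul' := fun c D => by
        simp [ph_smul, smul_eq_C_mul] }
  have h1 : LinearIndependent k (F ∘ v) := by
    have h2 : LinearIndependent k (fun n : ℕ => (X : k[X]) ^ n) := by
      have := (Polynomial.basisMonomials k).linearIndependent
      simpa [Polynomial.coe_basisMonomials, Polynomial.X_pow_eq_monomial] using this
    have h3 : F ∘ v = (fun n : ℕ => (X : k[X]) ^ n) ∘ fun n => n + 2 := by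
      funext n
      exact ph_mk (X ^ (n + 2)) (pow_dvd_pow _ (by omega))
    rw [h3]
    exact h2.comp _ (fun a b h => by simpa using h)
  have h4 : LinearIndependent k v := LinearIndependent.of_comp F h1
  have h5 : Finite ℕ := h4.finite
  exact _root_.not_finite ℕ

/-- A Lie algebra is Noetherian if it satisfies the maximal condition on subalgebras: every
ascending chain of subalgebras is eventually constant. -/
def IsNoetherianLie (k L : Type u) [Field k] [LieRing L] [LieAlgebra k L] : Prop :=
  ∀ H : ℕ → LieSubalgebra k L, (∀ n, H n ≤ H (n + 1)) → ∃ n, ∀ m, n ≤ m → H m = H n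

/-- A Lie algebra is residually nilpotent (approximable by nilpotent Lie algebras) if for every
nonzero `x` there is an ideal `I` with `x ∉ I` and `L / I` nilpotent. -/
def IsResiduallyNilpotent (k L : Type u) [Field k] [LieRing L] [LieAlgebra k L] : Prop :=
  ∀ x : L, x ≠ 0 → ∃ I : LieIdeal k L, x ∉ I ∧ LieRing.IsNilpotent (L ⧸ I)

/-- **Theorem.** Over every field of characteristic zero there is an infinite-dimensional Lie algebra
which is Noetherian (in fact every subalgebra of it is finitely generated) and residually nilpotent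
(the intersection of its lower central series is zero). -/
theorem result (k : Type u) [Field k] [CharZero k] :
    ∃ (L : Type u) (_ : LieRing L) (_ : LieAlgebra k L),
      ¬ Module.Finite k L ∧
      IsNoetherianLie k L ∧
      (∀ H : LieSubalgebra k L, ∃ s : Finset L, LieSubalgebra.lieSpan k L (s : Set L) = H) ∧
      IsResiduallyNilpotent k L ∧
      ⨅ n, LieModule.lowerCentralSeries k L L n = ⊥ := by
  refine ⟨W k, inferInstance, inferInstance, infinite_dim, ?_, ?_, ?_, ?_⟩
  · intro H hH
    obtain ⟨n, hn⟩ := stab ⟨H, monotone_nat_of_le_succ hH⟩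
    exact ⟨n, fun m hm => (hn m hm).symm⟩
  · intro H
    have hwf : WellFoundedGT (LieSubalgebra k (W k)) :=
      wellFoundedGT_iff_monotone_chain_condition.2 stab
    let T : Set (LieSubalgebra k (W k)) :=
      {K | K ≤ H ∧ ∃ s : Finset (W k), LieSubalgebra.lieSpan k (W k) (s : Set (W k)) = K}
    have hT : T.Nonempty := ⟨⊥, bot_le, ∅, by simp⟩
    obtain ⟨K, ⟨hK1, s, hs⟩, hK2⟩ := hwf.wf.has_min T hT
    refine ⟨s, ?_⟩
    rw [hs]
    refine le_antisymm hK1 fun x hx => ?_
    by_contra hxK
    classical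
    have h1 : LieSubalgebra.lieSpan k (W k) ((insert x s : Finset (W k)) : Set (W k)) ∈ T := by
      refine ⟨?_, _, rfl⟩
      rw [LieSubalgebra.lieSpan_le]
      intro y hy
      rw [Finset.coe_insert] at hy
      rcases hy with rfl | hy
      · exact hx
      · refine hK1 ?_
        rw [← hs]
        exact LieSubalgebra.subset_lieSpan hy
    refine hK2 _ h1 (lt_of_le_of_ne ?_ ?_)
    · rw [← hs]
      apply LieSubalgebra.lieSpan_mono
      rw [Finset.coe_insert]
      exact Set.subset_insert _ _
    · intro he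
      apply hxK
      rw [he]
      exact LieSubalgebra.subset_lieSpan (by simp)
  · intro x hx
    obtain ⟨n, hn⟩ := exists_notMem hx
    exact ⟨I n, hn, nilp n⟩
  · rw [eq_bot_iff]
    intro x hx
    by_contra h
    obtain ⟨n, hn⟩ := exists_notMem (D := x) (fun h0 => h (by rw [h0]; exact zero_mem _))
    rw [LieSubmodule.mem_iInf] at hx
    exact hn (lcs_le n (hx n))

end Pool.Agent.Results.MP_d0ec72_al.WittPositive
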